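import Mathlib

namespace Pool.Agent.Results.MP_ef9ba3_an.CenterNotRegularizer

/-- The set `K_{y,E}` of elements consistent with the data: `‖P f‖ ≤ ε` and `‖y - Λ f‖ ≤ η`. -/
def consistentSet {H : Type*} [NormedAddCommGroup H] [InnerProductSpace ℝ H] {m : ℕ}
    (P : H →ₗ[ℝ] H) (L : H →ₗ[ℝ] EuclideanSpace ℝ (Fin m)) (ε η : ℝ)
    (y : EuclideanSpace ℝ (Fin m)) : Set H :=
  {f | ‖P f‖ ≤ ε ∧ ‖y - L f‖ ≤ η}

/-- The worst-case error `sup_{f ∈ K} ‖f - z‖` of the point `z` over the set `K`. -/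
noncomputable def worstError {H : Type*} [NormedAddCommGroup H] (K : Set H) (z : H) : ℝ :=
  ⨆ f : K, ‖(f : H) - z‖

/-- `z` is a Chebyshev center of `K`: it minimises the worst-case error. -/
def IsChebyshevCenter {H : Type*} [NormedAddCommGroup H] (K : Set H) (z : H) : Prop :=
  ∀ w : H, worstError K z ≤ worstError K w

/-- The regularization functional `F_τ(f) = (1-τ) ‖P f‖² + τ ‖y - Λ f‖²`. -/
noncomputable def regFun {H : Type*} [NormedAddCommGroup H] [InnerProductSpace ℝ H] {m : ℕ}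
    (P : H →ₗ[ℝ] H) (L : H →ₗ[ℝ] EuclideanSpace ℝ (Fin m))
    (y : EuclideanSpace ℝ (Fin m)) (τ : ℝ) (f : H) : ℝ :=
  (1 - τ) * ‖P f‖ ^ 2 + τ * ‖y - L f‖ ^ 2

/-- The statement of Q1: the Chebyshev center always minimises some `F_τ`, `τ ∈ [0,1]`. -/
def Q1 : Prop :=
  ∀ (H : Type) [NormedAddCommGroup H] [InnerProductSpace ℝ H] [FiniteDimensional ℝ H] (m : ℕ)
    (P : H →ₗ[ℝ] H) (L : H →ₗ[ℝ] EuclideanSpace ℝ (Fin m)) (ε η : ℝ)
    (y : EuclideanSpace ℝ (Fin m)),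
    0 < ε → 0 < η → LinearMap.ker P ⊓ LinearMap.ker L = ⊥ →
    (consistentSet P L ε η y).Nonempty →
    ∀ z : H, IsChebyshevCenter (consistentSet P L ε η y) z →
      ∃ τ ∈ Set.Icc (0 : ℝ) 1, ∀ f : H, regFun P L y τ z ≤ regFun P L y τ f

abbrev E := EuclideanSpace ℝ (Fin 2)

noncomputable def P0 : E →ₗ[ℝ] E where
  toFun f := !₂[f 0 / 2, 2 * f 1]
  map_add' f g := by
    ext i; fin_cases i <;> simp <;> ring
  map_smul' c f := by
    ext i; fin_cases i <;> simp <;> ring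

noncomputable def L0 : E →ₗ[ℝ] E where
  toFun f := !₂[4 * f 1 - f 0 / 2, f 0 / 2]
  map_add' f g := by
    ext i; fin_cases i <;> simp <;> ring
  map_smul' c f := by
    ext i; fin_cases i <;> simp <;> ring

noncomputable def y0 : E := !₂[0, 1]

noncomputable def z0 : E := !₂[1, 0]

lemma normsq (f : E) : ‖f‖ ^ 2 = f 0 ^ 2 + f 1 ^ 2 := by
  rw [EuclideanSpace.norm_sq_eq]; simp [Fin.sum_univ_two]

lemma normP (f : E) : ‖P0 f‖ ^ 2 = f 0 ^ 2 / 4 + 4 * f 1 ^ 2 := by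
  rw [normsq]; simp [P0]; ring

lemma normL (f : E) : ‖y0 - L0 f‖ ^ 2 = (4 * f 1 - f 0 / 2) ^ 2 + (1 - f 0 / 2) ^ 2 := by
  rw [normsq]; simp [L0, y0]; ring

lemma mem_iff (f : E) : f ∈ consistentSet P0 L0 1 1 y0 ↔
    f 0 ^ 2 / 4 + 4 * f 1 ^ 2 ≤ 1 ∧ (4 * f 1 - f 0 / 2) ^ 2 + (1 - f 0 / 2) ^ 2 ≤ 1 := by
  unfold consistentSet
  simp only [Set.mem_ofPred_eq]
  rw [← normP, ← normL]
  constructor
  · rintro ⟨h1, h2⟩
    exact ⟨by nlinarith [norm_nonneg (P0 f)], by nlinarith [norm_nonneg (y0 - L0 f)]⟩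
  · rintro ⟨h1, h2⟩
    exact ⟨by nlinarith [norm_nonneg (P0 f)], by nlinarith [norm_nonneg (y0 - L0 f)]⟩

/-- The consistent set lies in the closed unit ball around `(1,0)`. -/
lemma ball_bound (f : E) (hf : f ∈ consistentSet P0 L0 1 1 y0) : ‖f - z0‖ ≤ 1 := by
  obtain ⟨h1, h2⟩ := (mem_iff f).1 hf
  have h3 : ‖f - z0‖ ^ 2 ≤ 1 := by
    rw [normsq]
    simp only [z0, PiLp.sub_apply]
    simp
    set x := f 0
    set t := f 1
    have hx0 : 0 ≤ x := by nlinarith [sq_nonneg (4 * t - x / 2), sq_nonneg x]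
    have hx2 : x ≤ 2 := by nlinarith [sq_nonneg t]
    rcases le_total (2 / 15) x with hx | hx
    · nlinarith [mul_nonneg (sub_nonneg.2 hx) (sub_nonneg.2 hx2)]
    · nlinarith [sq_nonneg (4 * t - x), mul_nonneg hx0 (sub_nonneg.2 hx)]
  nlinarith [norm_nonneg (f - z0)]

lemma mem_zero : (0 : E) ∈ consistentSet P0 L0 1 1 y0 := by
  rw [mem_iff]; simp

lemma mem_two : (!₂[2, 0] : E) ∈ consistentSet P0 L0 1 1 y0 := by
  rw [mem_iff]; simp; norm_num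

lemma bdd (w : E) : BddAbove (Set.range fun f : consistentSet P0 L0 1 1 y0 => ‖(f : E) - w‖) := by
  refine ⟨1 + ‖z0 - w‖, ?_⟩
  rintro _ ⟨f, rfl⟩
  have := ball_bound f.1 f.2
  calc ‖(f : E) - w‖ = ‖((f : E) - z0) + (z0 - w)‖ := by congr 1; abel
    _ ≤ ‖(f : E) - z0‖ + ‖z0 - w‖ := norm_add_le _ _
    _ ≤ 1 + ‖z0 - w‖ := by linarith

lemma worst_z0 : worstError (consistentSet P0 L0 1 1 y0) z0 ≤ 1 := by
  have : Nonempty (consistentSet P0 L0 1 1 y0) := ⟨⟨0, mem_zero⟩⟩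
  exact ciSup_le fun f => ball_bound f.1 f.2

lemma worst_ge (w : E) : 1 + (‖w - z0‖ ^ 2) ≤ worstError (consistentSet P0 L0 1 1 y0) w ^ 2 := by
  have h1 : ‖(0 : E) - w‖ ≤ worstError (consistentSet P0 L0 1 1 y0) w :=
    le_ciSup (bdd w) ⟨0, mem_zero⟩
  have h2 : ‖(!₂[2, 0] : E) - w‖ ≤ worstError (consistentSet P0 L0 1 1 y0) w :=
    le_ciSup (bdd w) ⟨!₂[2, 0], mem_two⟩
  have h3 : ‖(0 : E) - w‖ ^ 2 ≤ worstError (consistentSet P0 L0 1 1 y0) w ^ 2 := by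
    gcongr
  have h4 : ‖(!₂[2, 0] : E) - w‖ ^ 2 ≤ worstError (consistentSet P0 L0 1 1 y0) w ^ 2 := by
    gcongr
  rw [normsq] at h3 h4 ⊢
  simp [z0] at h3 h4 ⊢
  nlinarith

lemma center_z0 : IsChebyshevCenter (consistentSet P0 L0 1 1 y0) z0 := by
  intro w
  have h1 := worst_z0
  have h2 := worst_ge w
  have h3 : 0 ≤ worstError (consistentSet P0 L0 1 1 y0) w := Real.iSup_nonneg fun _ => norm_nonneg _
  nlinarith [sq_nonneg ‖w - z0‖]

/-- **Q1 is false.** There are data in the plane for which the Chebyshev center minimises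
`F_τ` for no `τ ∈ [0,1]`; in addition the center is unique there. -/
theorem result : ¬ Q1 ∧
    ∃ (P : EuclideanSpace ℝ (Fin 2) →ₗ[ℝ] EuclideanSpace ℝ (Fin 2))
      (L : EuclideanSpace ℝ (Fin 2) →ₗ[ℝ] EuclideanSpace ℝ (Fin 2))
      (y z : EuclideanSpace ℝ (Fin 2)),
      LinearMap.ker P = ⊥ ∧ LinearMap.ker L = ⊥ ∧ (consistentSet P L 1 1 y).Nonempty ∧
      IsChebyshevCenter (consistentSet P L 1 1 y) z ∧
      (∀ w, IsChebyshevCenter (consistentSet P L 1 1 y) w → w = z) ∧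
      ∀ τ ∈ Set.Icc (0 : ℝ) 1, ∃ f, regFun P L y τ f < regFun P L y τ z := by
  have kerP : LinearMap.ker P0 = ⊥ := by
    rw [LinearMap.ker_eq_bot']
    intro f hf
    have h := normP f
    rw [hf] at h
    simp at h
    ext i
    fin_cases i
    · simp; nlinarith [sq_nonneg (f 0), sq_nonneg (f 1)]
    · simp; nlinarith [sq_nonneg (f 0), sq_nonneg (f 1)]
  have kerL : LinearMap.ker L0 = ⊥ := by
    rw [LinearMap.ker_eq_bot']
    intro f hf
    have h0 : L0 f 0 = 0 := by rw [hf]; simp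
    have h1 : L0 f 1 = 0 := by rw [hf]; simp
    simp [L0] at h0 h1
    ext i
    fin_cases i
    · simpa using h1
    · simp; rw [h1] at h0; linarith
  have key : ∀ τ ∈ Set.Icc (0 : ℝ) 1, ∃ f, regFun P0 L0 y0 τ f < regFun P0 L0 y0 τ z0 := by
    rintro τ ⟨h0, h1⟩
    refine ⟨!₂[1 - (1 - τ) / 100, τ * 8 / 100], ?_⟩
    unfold regFun
    simp only [normP, normL, z0]
    simp only [Matrix.cons_val_zero, Matrix.cons_val_one]
    have h2 : 0 ≤ 1 - τ := sub_nonneg.2 h1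
    have g1 : 0 ≤ (1 - τ) * τ := mul_nonneg h2 h0
    nlinarith [mul_nonneg h0 (sq_nonneg τ), mul_nonneg h2 (sq_nonneg (1 - τ)),
      mul_nonneg g1 h0, mul_nonneg g1 h2]
  have uniq : ∀ w, IsChebyshevCenter (consistentSet P0 L0 1 1 y0) w → w = z0 := by
    intro w hw
    have h1 := worst_z0
    have h2 := worst_ge w
    have h3 : 0 ≤ worstError (consistentSet P0 L0 1 1 y0) w :=
      Real.iSup_nonneg fun _ => norm_nonneg _
    have h4 := hw z0
    have h5 : ‖w - z0‖ ^ 2 ≤ 0 := by nlinarith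
    have h6 : ‖w - z0‖ = 0 := by nlinarith [norm_nonneg (w - z0)]
    exact sub_eq_zero.1 (norm_eq_zero.1 h6)
  refine ⟨?_, P0, L0, y0, z0, kerP, kerL, ⟨0, mem_zero⟩, center_z0, uniq, key⟩
  intro h
  obtain ⟨τ, hτ, hmin⟩ := h E 2 P0 L0 1 1 y0 one_pos one_pos (by rw [kerP]; simp) ⟨0, mem_zero⟩
    z0 center_z0
  obtain ⟨f, hf⟩ := key τ hτ
  exact absurd (hmin f) (not_le.2 hf)

end Pool.Agent.Results.MP_ef9ba3_an.CenterNotRegularizer
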